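import Pool.Agent.H33.SMS.Targets

/-!
`s`-sums: no zeros for large `n`.
-/

set_option autoImplicit false

namespace Pool.Agent.H78.SMS

open Pool.Agent.H33.SMS Pool.Agent.H14.MT

theorem pf_FIX (hB : T_BIG) (hL : T_LAR) : T_FIX := by
  intro s hs
  obtain ⟨K, hK⟩ := hB s hs
  refine ⟨s ^ (K + 3), fun n hn k => ?_⟩
  by_cases h : K ≤ k
  · refine hK n k h (le_trans ?_ hn)
    calc s = s ^ 1 := (pow_one s).symm
      _ ≤ s ^ (K + 3) := Nat.pow_le_pow_right (by omega) (by omega)
  · have h1 : s ^ (k + 3) ≤ n := le_trans (Nat.pow_le_pow_right (by omega) (by omega)) hn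
    exact (hL s (by omega) n k h1).ne'

end Pool.Agent.H78.SMS
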