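import Pool.Agent.H33.SMS.Targets

/-!
The logarithms of the primes are linearly independent over the rationals.
-/

set_option autoImplicit false

namespace Pool.Agent.H78.SMS

open Pool.Agent.H33.SMS Pool.Agent.H14.MT

theorem pv_prod {ι : Type} (t : Finset ι) (q : ℕ) [Fact q.Prime] (a : ι → ℚ) (e : ι → ℤ)
    (ha : ∀ i ∈ t, a i ≠ 0) :
    padicValRat q (∏ i ∈ t, a i ^ e i) = ∑ i ∈ t, e i * padicValRat q (a i) := by
  classical
  induction t using Finset.induction_on with
  | empty => simp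
  | insert b t hb ih =>
    rw [Finset.prod_insert hb, Finset.sum_insert hb, padicValRat.mul, padicValRat.zpow,
      ih (fun i hi => ha i (Finset.mem_insert_of_mem hi))]
    · exact zpow_ne_zero _ (ha b (Finset.mem_insert_self _ _))
    · exact Finset.prod_ne_zero_iff.2 fun i hi =>
        zpow_ne_zero _ (ha i (Finset.mem_insert_of_mem hi))

theorem pf_LIP : T_LIP := by
  intro s
  rw [← LinearIndependent.iff_fractionRing ℤ ℚ, Fintype.linearIndependent_iff]
  intro g hg p0
  have hp : ∀ i : Pr s, (i : ℕ).Prime := fun i => (Finset.mem_filter.1 i.2).2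
  have h0 : ∀ i : Pr s, ((i : ℕ) : ℝ) ≠ 0 := fun i => by exact_mod_cast (hp i).ne_zero
  have h1 : ∑ i, (g i : ℝ) * Real.log (i : ℕ) = 0 := by
    have h2 : ((∑ i, (g i : ℝ) * Real.log (i : ℕ) : ℝ) : ℂ) = 0 := by
      rw [← hg]
      push_cast
      refine Finset.sum_congr rfl fun i _ => ?_
      rw [zsmul_eq_mul]
    exact_mod_cast h2
  have h3 : Real.log (∏ i : Pr s, ((i : ℕ) : ℝ) ^ g i) = 0 := by
    rw [Real.log_prod (fun i _ => zpow_ne_zero _ (h0 i)), ← h1]
    refine Finset.sum_congr rfl fun i _ => ?_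
    rw [Real.log_zpow]
  have h4 : (∏ i : Pr s, ((i : ℕ) : ℝ) ^ g i) = 1 := by
    refine Real.eq_one_of_pos_of_log_eq_zero ?_ h3
    exact Finset.prod_pos fun i _ => zpow_pos (by exact_mod_cast (hp i).pos) _
  have h5 : (∏ i : Pr s, ((i : ℕ) : ℚ) ^ g i) = 1 := by
    have : (((∏ i : Pr s, ((i : ℕ) : ℚ) ^ g i : ℚ)) : ℝ) = 1 := by
      rw [← h4]
      push_cast
      rfl
    exact_mod_cast this
  have : Fact (p0 : ℕ).Prime := ⟨hp p0⟩
  have h6 := pv_prod Finset.univ (p0 : ℕ) (fun i : Pr s => ((i : ℕ) : ℚ)) g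
    (fun i _ => by exact_mod_cast (hp i).ne_zero)
  rw [h5, padicValRat.one, Finset.sum_eq_single p0] at h6
  · rw [padicValRat.self (hp p0).one_lt] at h6
    omega
  · intro b _ hb
    have hne : (b : ℕ) ≠ (p0 : ℕ) := fun h => hb (Subtype.ext h)
    rw [padicValRat.of_nat, padicValNat.eq_zero_of_not_dvd]
    · simp
    · exact fun hd => hne ((Nat.prime_dvd_prime_iff_eq (hp p0) (hp b)).1 hd).symm
  · intro h
    exact (h (Finset.mem_univ _)).elim

end Pool.Agent.H78.SMS
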